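import Pool.Agent.helper5.BEY.SpecA
import Pool.Agent.helper59.DM.DV

/-! Row bey:DIV (MP_4467b5_nt): a weighted mean square of the divisor function. -/

set_option autoImplicit false

open Complex MeasureTheory

namespace Pool.Agent.BEY

/-- the decreasing majorant -/
noncomputable def DIV_h (x : ℝ) : ℝ := (1 + x ^ 2) ^ (-(3 / 4) : ℝ)

theorem DIV_nonneg (x : ℝ) : 0 ≤ DIV_h x := Real.rpow_nonneg (by positivity) _

theorem DIV_int : Integrable DIV_h := by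
  have h := integrable_rpow_neg_one_add_norm_sq (E := ℝ) (μ := volume) (r := 3 / 2)
    (by rw [Module.finrank_self]; norm_num)
  refine h.congr (Filter.Eventually.of_forall fun x => ?_)
  show (1 + ‖x‖ ^ 2) ^ (-(3 / 2) / 2 : ℝ) = (1 + x ^ 2) ^ (-(3 / 4) : ℝ)
  rw [Real.norm_eq_abs, sq_abs]
  norm_num

theorem DIV_sum (K : ℝ) (hK : 0 < K) (n : ℕ) :
    ∑ i ∈ Finset.range n, DIV_h (((i + 1 : ℕ) : ℝ) / K) ≤ K * ∫ x, DIV_h x := by
  have hanti : AntitoneOn (fun x : ℝ => DIV_h (x / K)) (Set.Icc 0 (0 + (n : ℝ))) := by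
    intro x hx y _ hxy
    show DIV_h (y / K) ≤ DIV_h (x / K)
    unfold DIV_h
    have h1 : x / K ≤ y / K := div_le_div_of_nonneg_right hxy hK.le
    have h2 : 0 ≤ x / K := div_nonneg hx.1 hK.le
    exact Real.rpow_le_rpow_of_nonpos (by positivity) (by nlinarith) (by norm_num)
  have h1 := hanti.sum_le_integral
  rw [intervalIntegral.integral_comp_div (fun x => DIV_h x) hK.ne', smul_eq_mul] at h1
  have h2 : ∑ i ∈ Finset.range n, DIV_h (((i + 1 : ℕ) : ℝ) / K) =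
      ∑ i ∈ Finset.range n, DIV_h ((0 + ((i + 1 : ℕ) : ℝ)) / K) := by
    simp only [zero_add]
  rw [h2]
  refine h1.trans (mul_le_mul_of_nonneg_left ?_ hK.le)
  rw [intervalIntegral.integral_of_le (by
    rw [zero_div, zero_add]
    positivity)]
  exact setIntegral_le_integral DIV_int (Filter.Eventually.of_forall DIV_nonneg)

theorem DIV_term (e C : ℝ) (he : 0 < e) (he2 : e ≤ 1 / 2) (hC : 0 < C)
    (h : ∀ n : ℕ, 1 ≤ n → Pool.Agent.helper84.DM.d n ≤ C * (n : ℝ) ^ (e / 2)) (K : ℝ) (hK : 0 < K)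
    (k : ℕ) (hk : 1 ≤ k) :
    Pool.Agent.helper84.DM.d k ^ 2 / (1 + ((k : ℝ) / K) ^ 2) ≤ C ^ 2 * K ^ e * DIV_h ((k : ℝ) / K) := by
  have hk0 : (0 : ℝ) < k := by exact_mod_cast hk
  set x : ℝ := (k : ℝ) / K with hx
  have hx0 : 0 < x := div_pos hk0 hK
  have hy : 0 < 1 + x ^ 2 := by positivity
  have hd0 : 0 ≤ Pool.Agent.helper84.DM.d k := Nat.cast_nonneg _
  have h1 : Pool.Agent.helper84.DM.d k ^ 2 ≤ C ^ 2 * (k : ℝ) ^ e := by
    have h2 := pow_le_pow_left₀ hd0 (h k hk) 2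
    have h3 : (C * (k : ℝ) ^ (e / 2)) ^ 2 = C ^ 2 * (k : ℝ) ^ e := by
      rw [mul_pow, ← Real.rpow_natCast ((k : ℝ) ^ (e / 2)) 2, ← Real.rpow_mul hk0.le]
      congr 2
      push_cast
      ring
    rw [h3] at h2
    exact h2
  have h4 : (k : ℝ) ^ e = K ^ e * x ^ e := by
    rw [← Real.mul_rpow hK.le hx0.le]
    congr 1
    rw [hx]
    field_simp
  have h5 : x ^ e ≤ (1 + x ^ 2) ^ (1 / 4 : ℝ) := by
    have h6 : x ^ e ≤ (1 + x ^ 2) ^ (e / 2) := by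
      have h7 : x ^ e = (x ^ 2) ^ (e / 2) := by
        rw [← Real.rpow_natCast x 2, ← Real.rpow_mul hx0.le]
        congr 1
        push_cast
        ring
      rw [h7]
      exact Real.rpow_le_rpow (by positivity) (by linarith) (by linarith)
    exact h6.trans (Real.rpow_le_rpow_of_exponent_le (by nlinarith) (by linarith))
  have h8 : DIV_h x = (1 + x ^ 2) ^ (1 / 4 : ℝ) / (1 + x ^ 2) := by
    unfold DIV_h
    rw [eq_div_iff hy.ne']
    nth_rewrite 2 [← Real.rpow_one (1 + x ^ 2)]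
    rw [← Real.rpow_add hy]
    norm_num
  rw [h8, mul_div_assoc']
  refine div_le_div_of_nonneg_right ?_ hy.le
  calc Pool.Agent.helper84.DM.d k ^ 2 ≤ C ^ 2 * (k : ℝ) ^ e := h1
    _ = C ^ 2 * K ^ e * x ^ e := by rw [h4]; ring
    _ ≤ C ^ 2 * K ^ e * (1 + x ^ 2) ^ (1 / 4 : ℝ) :=
        mul_le_mul_of_nonneg_left h5 (by positivity)

theorem DIV : DIV_stmt := by
  intro ε hε
  set e : ℝ := min ε (1 / 2) with he
  have he0 : 0 < e := lt_min hε (by norm_num)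
  obtain ⟨C, hC, h⟩ := Pool.Agent.helper84.DM.divisor_bound (e / 2) (by linarith)
  have hI : 0 ≤ ∫ x, DIV_h x := integral_nonneg DIV_nonneg
  refine ⟨C ^ 2 * (∫ x, DIV_h x) + 1, by positivity, fun K hK => ?_⟩
  have hnn : ∀ k : ℕ, 0 ≤ Pool.Agent.helper84.DM.d k ^ 2 / (1 + ((k : ℝ) / K) ^ 2) := fun k => by
    positivity
  have hpart : ∀ n : ℕ, ∑ k ∈ Finset.range n, Pool.Agent.helper84.DM.d k ^ 2 / (1 + ((k : ℝ) / K) ^ 2) ≤
      (C ^ 2 * (∫ x, DIV_h x) + 1) * K * (1 + K) ^ ε := by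
    intro n
    have h1 : ∑ k ∈ Finset.range n, Pool.Agent.helper84.DM.d k ^ 2 / (1 + ((k : ℝ) / K) ^ 2) ≤
        ∑ k ∈ Finset.range (n + 1), Pool.Agent.helper84.DM.d k ^ 2 / (1 + ((k : ℝ) / K) ^ 2) :=
      Finset.sum_le_sum_of_subset_of_nonneg (Finset.range_mono (Nat.le_succ n)) fun k _ _ => hnn k
    have h0 : Pool.Agent.helper84.DM.d 0 = 0 := by simp [Pool.Agent.helper84.DM.d]
    rw [Finset.sum_range_succ', h0] at h1
    have h2 : ∑ i ∈ Finset.range n, Pool.Agent.helper84.DM.d (i + 1) ^ 2 /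
        (1 + (((i + 1 : ℕ) : ℝ) / K) ^ 2) ≤
        ∑ i ∈ Finset.range n, C ^ 2 * K ^ e * DIV_h (((i + 1 : ℕ) : ℝ) / K) :=
      Finset.sum_le_sum fun i _ => DIV_term e C he0 (min_le_right _ _) hC h K hK (i + 1) (by omega)
    rw [← Finset.mul_sum] at h2
    have h3 := mul_le_mul_of_nonneg_left (DIV_sum K hK n) (show 0 ≤ C ^ 2 * K ^ e by positivity)
    have h4 : K ^ e ≤ (1 + K) ^ ε :=
      (Real.rpow_le_rpow hK.le (by linarith) he0.le).trans
        (Real.rpow_le_rpow_of_exponent_le (by linarith) (min_le_left _ _))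
    have h5 : C ^ 2 * K ^ e * (K * ∫ x, DIV_h x) ≤ C ^ 2 * (1 + K) ^ ε * (K * ∫ x, DIV_h x) :=
      mul_le_mul_of_nonneg_right (mul_le_mul_of_nonneg_left h4 (by positivity)) (by positivity)
    have h6 : 0 ≤ K * (1 + K) ^ ε := by positivity
    have h7 : (0 : ℝ) ^ 2 / (1 + (((0 : ℕ) : ℝ) / K) ^ 2) = 0 := by simp
    rw [h7, add_zero] at h1
    calc ∑ k ∈ Finset.range n, Pool.Agent.helper84.DM.d k ^ 2 / (1 + ((k : ℝ) / K) ^ 2)
        ≤ C ^ 2 * (1 + K) ^ ε * (K * ∫ x, DIV_h x) := h1.trans (h2.trans (h3.trans h5))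
      _ ≤ (C ^ 2 * (∫ x, DIV_h x) + 1) * K * (1 + K) ^ ε := by nlinarith
  exact ⟨summable_of_sum_range_le hnn hpart, Real.tsum_le_of_sum_range_le hnn hpart⟩

end Pool.Agent.BEY
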